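import Pool.Agent.L7h4.SF.Stm

/-! Project SF: SET. -/

set_option autoImplicit false

namespace Pool.Agent.L7h46.SF

open Pool.Agent.L7h4.SF

/-- PART SET. -/
theorem s_SET : S_SET := by
  classical
  intro n l hn hl hl2
  obtain ⟨μ, hμ⟩ : ∃ μ : ℂ, μ = l ^ 2 := ⟨_, rfl⟩
  rw [← hμ] at hl2 ⊢
  have hμn : μ ^ n = 1 := by
    rw [hμ, ← pow_mul, mul_comm, pow_mul]
    rcases hl with h | h <;> rw [h] <;> norm_num
  set m := orderOf μ with hm
  have hmn : m ∣ n := orderOf_dvd_of_pow_eq_one hμn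
  have hm0 : 0 < m := Nat.pos_of_dvd_of_pos hmn (by omega)
  have hμm : μ ^ m = 1 := pow_orderOf_eq_one μ
  obtain ⟨q, hq⟩ := hmn
  have hq0 : 0 < q := by
    rcases Nat.eq_zero_or_pos q with h | h
    · rw [h, mul_zero] at hq; omega
    · exact h
  have hμ0 : μ ≠ 0 := by
    intro h
    rw [h, zero_pow hm0.ne'] at hμm
    exact zero_ne_one hμm
  have hnorm : ‖μ‖ = 1 := by
    have h : ‖μ‖ ^ m = 1 := by rw [← norm_pow, hμm, norm_one]
    exact (pow_eq_one_iff_of_nonneg (norm_nonneg _) hm0.ne').1 h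
  have h2 : (2 : ℂ) ≠ 0 := two_ne_zero
  let f : ℕ → ℕ → ℂ := fun j k => (2 : ℂ) ^ (2 * (j : ℤ) - q + 1) * μ ^ k
  have hf0 : ∀ j k, f j k ≠ 0 := fun j k => mul_ne_zero (zpow_ne_zero _ h2) (pow_ne_zero _ hμ0)
  let S : Finset ℂ := (Finset.range q ×ˢ Finset.range m).image (fun x => f x.1 x.2)
  have hmem : ∀ j k, j < q → f j k ∈ S := by
    intro j k hj
    refine Finset.mem_image.2 ⟨(j, k % m), Finset.mem_product.2 ⟨Finset.mem_range.2 hj,
      Finset.mem_range.2 (Nat.mod_lt _ hm0)⟩, ?_⟩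
    show (2 : ℂ) ^ (2 * (j : ℤ) - q + 1) * μ ^ (k % m) = (2 : ℂ) ^ (2 * (j : ℤ) - q + 1) * μ ^ k
    rw [hm, pow_mod_orderOf]
  have hcard : S.card = n := by
    rw [Finset.card_image_of_injOn, Finset.card_product, Finset.card_range, Finset.card_range, hq,
      mul_comm]
    rintro ⟨j, k⟩ h1 ⟨j', k'⟩ h2' h
    obtain ⟨hj, hk⟩ := Finset.mem_product.1 h1
    obtain ⟨hj', hk'⟩ := Finset.mem_product.1 h2'
    rw [Finset.mem_range] at hj hk hj' hk'
    have h' : (2 : ℂ) ^ (2 * (j : ℤ) - q + 1) * μ ^ k = (2 : ℂ) ^ (2 * (j' : ℤ) - q + 1) * μ ^ k' := h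
    have hn' := congrArg norm h'
    rw [norm_mul, norm_mul, norm_pow, norm_pow, hnorm, one_pow, one_pow, mul_one, mul_one, norm_zpow,
      norm_zpow, RCLike.norm_ofNat] at hn'
    have hjj := zpow_right_injective₀ (by norm_num : (0 : ℝ) < 2) (by norm_num) hn'
    have hjj' : j = j' := by
      have : 2 * (j : ℤ) - q + 1 = 2 * (j' : ℤ) - q + 1 := hjj
      omega
    subst hjj'
    have hpow : μ ^ k = μ ^ k' := mul_left_cancel₀ (zpow_ne_zero _ h2) h'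
    have hkk : k = k' := pow_injOn_Iio_orderOf hk hk' hpow
    rw [hkk]
  have hinv : ∀ z ∈ S, ∀ e : ℕ, μ ^ e * z⁻¹ ∈ S := by
    intro z hz e
    obtain ⟨⟨j, k⟩, h1, rfl⟩ := Finset.mem_image.1 hz
    obtain ⟨hj, hk⟩ := Finset.mem_product.1 h1
    rw [Finset.mem_range] at hj hk
    have key : μ ^ e * (f j k)⁻¹ = f (q - 1 - j) (e + k * (m - 1)) := by
      rw [← div_eq_mul_inv, div_eq_iff (hf0 j k)]
      show μ ^ e = (2 : ℂ) ^ (2 * ((q - 1 - j : ℕ) : ℤ) - q + 1) * μ ^ (e + k * (m - 1)) *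
        ((2 : ℂ) ^ (2 * (j : ℤ) - q + 1) * μ ^ k)
      have e1 : (2 : ℂ) ^ (2 * ((q - 1 - j : ℕ) : ℤ) - q + 1) * (2 : ℂ) ^ (2 * (j : ℤ) - q + 1) = 1 := by
        rw [← zpow_add₀ h2]
        have : 2 * ((q - 1 - j : ℕ) : ℤ) - q + 1 + (2 * (j : ℤ) - q + 1) = 0 := by omega
        rw [this, zpow_zero]
      have e2 : μ ^ (e + k * (m - 1)) * μ ^ k = μ ^ e := by
        rw [← pow_add]
        have : e + k * (m - 1) + k = e + m * k := by
          obtain ⟨m', hm'⟩ : ∃ m', m = m' + 1 := ⟨m - 1, by omega⟩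
          rw [hm', Nat.add_sub_cancel]
          ring
        rw [this, pow_add, pow_mul, hμm, one_pow, mul_one]
      calc μ ^ e = 1 * μ ^ e := (one_mul _).symm
        _ = ((2 : ℂ) ^ (2 * ((q - 1 - j : ℕ) : ℤ) - q + 1) * (2 : ℂ) ^ (2 * (j : ℤ) - q + 1)) *
            (μ ^ (e + k * (m - 1)) * μ ^ k) := by rw [e1, e2]
        _ = _ := by ring
    rw [key]
    exact hmem _ _ (by omega)
  let e : S ≃ Fin n := S.equivFinOfCardEq hcard
  let a : Fin n → ℂ := fun i => ((e.symm i : S) : ℂ)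
  have haS : ∀ i, a i ∈ S := fun i => (e.symm i).2
  have ha0 : ∀ i, a i ≠ 0 := by
    intro i h
    obtain ⟨⟨j, k⟩, _, h1⟩ := Finset.mem_image.1 (haS i)
    exact hf0 j k (h1.trans h)
  have hsurj : ∀ z ∈ S, ∃ i, a i = z := by
    intro z hz
    exact ⟨e ⟨z, hz⟩, by show ((e.symm (e ⟨z, hz⟩) : S) : ℂ) = z; rw [Equiv.symm_apply_apply]⟩
  have h3 : ∀ i, ∃ i', a i' * a i = 1 := by
    intro i
    obtain ⟨i', hi'⟩ := hsurj _ (hinv _ (haS i) 0)
    exact ⟨i', by rw [hi', pow_zero, one_mul, inv_mul_cancel₀ (ha0 i)]⟩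
  have h4 : ∀ i, ∃ i', a i' * a i = μ := by
    intro i
    obtain ⟨i', hi'⟩ := hsurj _ (hinv _ (haS i) 1)
    exact ⟨i', by rw [hi', pow_one, mul_assoc, inv_mul_cancel₀ (ha0 i), mul_one]⟩
  choose σ hσ using h3
  choose τ hτ using h4
  refine ⟨a, σ, τ, ?_, ha0, hσ, hτ⟩
  intro i i' h
  exact e.symm.injective (Subtype.ext h)

end Pool.Agent.L7h46.SF
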