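import Pool.Agent.L7h4.SF.Stm

/-! Project SF: RANK. -/

set_option autoImplicit false

namespace Pool.Agent.L7h46.SF

open Pool.Agent.L7h4.SF Pool.Agent.L7h4.F5 Matrix

theorem cr0 (x y : Fin 3 → ℂ) : (x ⨯₃ y) 0 = x 1 * y 2 - x 2 * y 1 := by
  rw [cross_apply]; rfl

theorem cr1 (x y : Fin 3 → ℂ) : (x ⨯₃ y) 1 = x 2 * y 0 - x 0 * y 2 := by
  rw [cross_apply]; rfl

theorem cr2 (x y : Fin 3 → ℂ) : (x ⨯₃ y) 2 = x 0 * y 1 - x 1 * y 0 := by
  rw [cross_apply]; rfl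

theorem ext3 {x y : Fin 3 → ℂ} (h0 : x 0 = y 0) (h1 : x 1 = y 1) (h2 : x 2 = y 2) : x = y := by
  funext i
  fin_cases i
  · exact h0
  · exact h1
  · exact h2

/-- parallel vectors -/
theorem par {x n : Fin 3 → ℂ} (h : x ⨯₃ n = 0) (hn : n ≠ 0) : ∃ c : ℂ, x = c • n := by
  have h0 : x 1 * n 2 - x 2 * n 1 = 0 := by rw [← cr0, h]; rfl
  have h1 : x 2 * n 0 - x 0 * n 2 = 0 := by rw [← cr1, h]; rfl
  have h2 : x 0 * n 1 - x 1 * n 0 = 0 := by rw [← cr2, h]; rfl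
  by_cases e0 : n 0 = 0
  · by_cases e1 : n 1 = 0
    · have e2 : n 2 ≠ 0 := by
        intro e2
        exact hn (ext3 e0 e1 e2)
      refine ⟨x 2 / n 2, ext3 ?_ ?_ ?_⟩
      · show x 0 = x 2 / n 2 * n 0
        field_simp
        linear_combination -h1
      · show x 1 = x 2 / n 2 * n 1
        field_simp
        linear_combination h0
      · show x 2 = x 2 / n 2 * n 2
        field_simp
    · refine ⟨x 1 / n 1, ext3 ?_ ?_ ?_⟩
      · show x 0 = x 1 / n 1 * n 0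
        field_simp
        linear_combination h2
      · show x 1 = x 1 / n 1 * n 1
        field_simp
      · show x 2 = x 1 / n 1 * n 2
        field_simp
        linear_combination -h0
  · refine ⟨x 0 / n 0, ext3 ?_ ?_ ?_⟩
    · show x 0 = x 0 / n 0 * n 0
      field_simp
    · show x 1 = x 0 / n 0 * n 1
      field_simp
      linear_combination -h2
    · show x 2 = x 0 / n 0 * n 2
      field_simp
      linear_combination h1

theorem mv (B : Mat 3) (v : Fin 3 → ℂ) (i : Fin 3) :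
    (B *ᵥ v) i = B i 0 * v 0 + B i 1 * v 1 + B i 2 * v 2 := by
  rw [Matrix.mulVec, dotProduct, Fin.sum_univ_three]

/-- two kernel vectors -/
theorem rank_one_of_ker {B : Mat 3} {w1 w2 : Fin 3 → ℂ} (h1 : B *ᵥ w1 = 0) (h2 : B *ᵥ w2 = 0)
    (hn : w1 ⨯₃ w2 ≠ 0) : ∃ u : Fin 3 → ℂ, B = vecMulVec u (w1 ⨯₃ w2) := by
  have key : ∀ i, ∃ c : ℂ, B i = c • (w1 ⨯₃ w2) := by
    intro i
    have e1 : B i 0 * w1 0 + B i 1 * w1 1 + B i 2 * w1 2 = 0 := by rw [← mv, h1]; rfl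
    have e2 : B i 0 * w2 0 + B i 1 * w2 1 + B i 2 * w2 2 = 0 := by rw [← mv, h2]; rfl
    apply par _ hn
    apply ext3
    · rw [cr0, cr1, cr2]
      show _ = (0 : ℂ)
      linear_combination w1 0 * e2 - w2 0 * e1
    · rw [cr1, cr0, cr2]
      show _ = (0 : ℂ)
      linear_combination w1 1 * e2 - w2 1 * e1
    · rw [cr2, cr0, cr1]
      show _ = (0 : ℂ)
      linear_combination w1 2 * e2 - w2 2 * e1
  choose u hu using key
  refine ⟨u, ?_⟩
  ext i j
  rw [vecMulVec_apply]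
  exact congrFun (hu i) j

/-- all columns parallel -/
theorem rank_one_of_cols {B : Mat 3} (hB : B ≠ 0) (h : ∀ v w, (B *ᵥ v) ⨯₃ (B *ᵥ w) = 0) :
    ∃ u p : Fin 3 → ℂ, B = vecMulVec u p := by
  obtain ⟨j, hj⟩ : ∃ j : Fin 3, B *ᵥ (Pi.single j 1) ≠ 0 := by
    by_contra hcon
    push Not at hcon
    apply hB
    ext i j
    have := congrFun (hcon j) i
    rw [Matrix.mulVec_single_one] at this
    exact this
  have key : ∀ l : Fin 3, ∃ c : ℂ, B *ᵥ (Pi.single l 1) = c • (B *ᵥ (Pi.single j 1)) := fun l =>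
    par (h _ _) hj
  choose p hp using key
  refine ⟨B *ᵥ (Pi.single j 1), p, ?_⟩
  ext i l
  rw [vecMulVec_apply, mul_comm]
  have := congrFun (hp l) i
  rw [Matrix.mulVec_single_one] at this
  exact this

theorem det_cols (A : Mat 3) (v : Fin 3 → ℂ) :
    (Matrix.of fun i k : Fin 3 => (A ^ (k : ℕ) *ᵥ v) i).det =
      v ⬝ᵥ ((A *ᵥ v) ⨯₃ (A *ᵥ (A *ᵥ v))) := by
  have e0 : ∀ i, (Matrix.of fun i k : Fin 3 => (A ^ (k : ℕ) *ᵥ v) i) i 0 = v i := by
    intro i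
    show (A ^ 0 *ᵥ v) i = v i
    rw [pow_zero, one_mulVec]
  have e1 : ∀ i, (Matrix.of fun i k : Fin 3 => (A ^ (k : ℕ) *ᵥ v) i) i 1 = (A *ᵥ v) i := by
    intro i
    show (A ^ 1 *ᵥ v) i = _
    rw [pow_one]
  have e2 : ∀ i, (Matrix.of fun i k : Fin 3 => (A ^ (k : ℕ) *ᵥ v) i) i 2 = (A *ᵥ (A *ᵥ v)) i := by
    intro i
    show (A ^ 2 *ᵥ v) i = _
    rw [pow_two, mulVec_mulVec]
  rw [Matrix.det_fin_three]
  simp only [e0, e1, e2]
  rw [dotProduct, Fin.sum_univ_three, cr0, cr1, cr2]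
  ring

theorem triple_shift (A : Mat 3) (b : ℂ) (v : Fin 3 → ℂ) :
    v ⬝ᵥ (((A - b • 1) *ᵥ v) ⨯₃ ((A - b • 1) *ᵥ ((A - b • 1) *ᵥ v))) =
      v ⬝ᵥ ((A *ᵥ v) ⨯₃ (A *ᵥ (A *ᵥ v))) := by
  have e1 : (A - b • 1) *ᵥ v = A *ᵥ v - b • v := by
    rw [sub_mulVec, smul_mulVec, one_mulVec]
  have e2 : (A - b • 1) *ᵥ ((A - b • 1) *ᵥ v) =
      A *ᵥ (A *ᵥ v) - (2 * b) • (A *ᵥ v) + (b ^ 2) • v := by
    rw [e1, sub_mulVec, smul_mulVec, one_mulVec, mulVec_sub, mulVec_smul]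
    ext i
    simp only [Pi.sub_apply, Pi.add_apply, Pi.smul_apply, smul_eq_mul]
    ring
  rw [e2, e1]
  set a1 := A *ᵥ v
  set a2 := A *ᵥ a1
  rw [dotProduct, dotProduct, Fin.sum_univ_three, Fin.sum_univ_three, cr0, cr1, cr2, cr0, cr1, cr2]
  simp only [Pi.sub_apply, Pi.add_apply, Pi.smul_apply, smul_eq_mul]
  ring

theorem eig_exists (A : Mat 3) : ∃ (b : ℂ), (A - b • 1).det = 0 := by
  obtain ⟨b, hb⟩ := Module.End.exists_eigenvalue (Matrix.toLin' A)
  obtain ⟨v, hv⟩ := hb.exists_hasEigenvector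
  refine ⟨b, Matrix.exists_mulVec_eq_zero_iff.1 ⟨v, hv.2, ?_⟩⟩
  have h := hv.apply_eq_smul
  rw [Matrix.toLin'_apply] at h
  rw [sub_mulVec, smul_mulVec, one_mulVec, h, sub_self]

/-- the image is orthogonal to `n` -/
theorem img_orth {B : Mat 3} (hdet : B.det = 0) (y v0 w0 : Fin 3 → ℂ) :
    (B *ᵥ y) ⬝ᵥ ((B *ᵥ v0) ⨯₃ (B *ᵥ w0)) = 0 := by
  have h : (B *ᵥ y) ⬝ᵥ ((B *ᵥ v0) ⨯₃ (B *ᵥ w0)) = B.det * (y ⬝ᵥ (v0 ⨯₃ w0)) := by
    rw [Matrix.det_fin_three, dotProduct, dotProduct, Fin.sum_univ_three, Fin.sum_univ_three, cr0,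
      cr1, cr2, cr0, cr1, cr2]
    simp only [mv]
    ring
  rw [h, hdet, zero_mul]

/-- PART RANK. -/
theorem s_RANK : S_RANK := by
  intro A hcyc hns
  have hno : ∀ v : Fin 3 → ℂ, v ⬝ᵥ ((A *ᵥ v) ⨯₃ (A *ᵥ (A *ᵥ v))) = 0 := by
    intro v
    rw [← det_cols]
    by_contra h
    exact hcyc ⟨v, h⟩
  obtain ⟨b, hb⟩ := eig_exists A
  set B : Mat 3 := A - b • 1 with hBdef
  have hB0 : B ≠ 0 := by
    intro h
    exact hns b (sub_eq_zero.1 h)
  have hnoB : ∀ v : Fin 3 → ℂ, v ⬝ᵥ ((B *ᵥ v) ⨯₃ (B *ᵥ (B *ᵥ v))) = 0 := by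
    intro v
    rw [hBdef, triple_shift]
    exact hno v
  have fin : ∀ (c : ℂ) (u p : Fin 3 → ℂ), A - c • 1 = vecMulVec u p →
      ∃ (b : ℂ) (u p : Fin 3 → ℂ), u ≠ 0 ∧ p ≠ 0 ∧ A = b • 1 + vecMulVec u p := by
    intro c u p h
    have hA : A = c • 1 + vecMulVec u p := by rw [← h]; abel
    refine ⟨c, u, p, ?_, ?_, hA⟩
    · rintro rfl
      apply hns c
      rw [hA, zero_vecMulVec, add_zero]
    · rintro rfl
      apply hns c
      rw [hA, vecMulVec_zero, add_zero]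
  by_cases hI : ∀ v w, (B *ᵥ v) ⨯₃ (B *ᵥ w) = 0
  · obtain ⟨u, p, hup⟩ := rank_one_of_cols hB0 hI
    exact fin b u p hup
  · push Not at hI
    obtain ⟨v0, w0, hn⟩ := hI
    set n := (B *ᵥ v0) ⨯₃ (B *ᵥ w0) with hndef
    have horth : ∀ y, (B *ᵥ y) ⬝ᵥ n = 0 := fun y => img_orth hb y v0 w0
    -- `B v × B² v` is parallel to `n`
    have hpar : ∀ v, ∃ c : ℂ, (B *ᵥ v) ⨯₃ (B *ᵥ (B *ᵥ v)) = c • n := by
      intro v
      apply par _ hn
      have h1 := horth v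
      have h2 := horth (B *ᵥ v)
      rw [dotProduct, Fin.sum_univ_three] at h1 h2
      generalize B *ᵥ v = a at h1 h2 ⊢
      generalize B *ᵥ a = a' at h2 ⊢
      apply ext3
      · rw [cr0, cr1, cr2]
        show _ = (0 : ℂ)
        linear_combination a' 0 * h1 - a 0 * h2
      · rw [cr1, cr0, cr2]
        show _ = (0 : ℂ)
        linear_combination a' 1 * h1 - a 1 * h2
      · rw [cr2, cr0, cr1]
        show _ = (0 : ℂ)
        linear_combination a' 2 * h1 - a 2 * h2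
    have hz1 : ∀ v, v ⬝ᵥ n ≠ 0 → (B *ᵥ v) ⨯₃ (B *ᵥ (B *ᵥ v)) = 0 := by
      intro v hv
      obtain ⟨c, hc⟩ := hpar v
      have h := hnoB v
      rw [hc, dotProduct_smul, smul_eq_mul] at h
      rcases mul_eq_zero.1 h with h | h
      · rw [hc, h, zero_smul]
      · exact absurd h hv
    obtain ⟨v', hv'⟩ : ∃ v', v' ⬝ᵥ n ≠ 0 := by
      by_contra hcon
      push Not at hcon
      apply hn
      ext i
      have := hcon (Pi.single i 1)
      rw [single_dotProduct, one_mul] at this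
      exact this
    have hz : ∀ v, (B *ᵥ v) ⨯₃ (B *ᵥ (B *ᵥ v)) = 0 := by
      intro v
      by_cases hv : v ⬝ᵥ n = 0
      · have hε : ∀ ε : ℂ, ε ≠ 0 → (B *ᵥ (v + ε • v')) ⨯₃ (B *ᵥ (B *ᵥ (v + ε • v'))) = 0 := by
          intro ε hε
          apply hz1
          rw [add_dotProduct, hv, zero_add, smul_dotProduct, smul_eq_mul]
          exact mul_ne_zero hε hv'
        have h1 := hε 1 one_ne_zero
        have h2 := hε (-1) (neg_ne_zero.2 one_ne_zero)
        have h3 := hε 2 two_ne_zero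
        simp only [mulVec_add, mulVec_smul] at h1 h2 h3
        generalize B *ᵥ v = a at h1 h2 h3 ⊢
        generalize B *ᵥ v' = a' at h1 h2 h3
        generalize B *ᵥ a = c at h1 h2 h3 ⊢
        generalize B *ᵥ a' = c' at h1 h2 h3
        apply ext3
        · have g1 := congrFun h1 0
          have g2 := congrFun h2 0
          have g3 := congrFun h3 0
          rw [cr0] at g1 g2 g3 ⊢
          simp only [Pi.add_apply, Pi.smul_apply, smul_eq_mul, Pi.zero_apply] at g1 g2 g3 ⊢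
          linear_combination g1 + (1 / 3 : ℂ) * g2 - (1 / 3 : ℂ) * g3
        · have g1 := congrFun h1 1
          have g2 := congrFun h2 1
          have g3 := congrFun h3 1
          rw [cr1] at g1 g2 g3 ⊢
          simp only [Pi.add_apply, Pi.smul_apply, smul_eq_mul, Pi.zero_apply] at g1 g2 g3 ⊢
          linear_combination g1 + (1 / 3 : ℂ) * g2 - (1 / 3 : ℂ) * g3
        · have g1 := congrFun h1 2
          have g2 := congrFun h2 2
          have g3 := congrFun h3 2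
          rw [cr2] at g1 g2 g3 ⊢
          simp only [Pi.add_apply, Pi.smul_apply, smul_eq_mul, Pi.zero_apply] at g1 g2 g3 ⊢
          linear_combination g1 + (1 / 3 : ℂ) * g2 - (1 / 3 : ℂ) * g3
      · exact hz1 v hv
    -- eigenvectors
    have hw1 : B *ᵥ v0 ≠ 0 := by
      intro h
      apply hn
      rw [hndef, h]
      ext i
      fin_cases i
      · show ((0 : Fin 3 → ℂ) ⨯₃ _) 0 = 0
        rw [cr0]; simp
      · show ((0 : Fin 3 → ℂ) ⨯₃ _) 1 = 0
        rw [cr1]; simp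
      · show ((0 : Fin 3 → ℂ) ⨯₃ _) 2 = 0
        rw [cr2]; simp
    have hw2 : B *ᵥ w0 ≠ 0 := by
      intro h
      apply hn
      rw [hndef, h]
      ext i
      fin_cases i
      · show (_ ⨯₃ (0 : Fin 3 → ℂ)) 0 = 0
        rw [cr0]; simp
      · show (_ ⨯₃ (0 : Fin 3 → ℂ)) 1 = 0
        rw [cr1]; simp
      · show (_ ⨯₃ (0 : Fin 3 → ℂ)) 2 = 0
        rw [cr2]; simp
    have anti : ∀ x y : Fin 3 → ℂ, x ⨯₃ y = 0 → y ⨯₃ x = 0 := by
      intro x y h
      rw [← cross_anticomm, h, neg_zero]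
    obtain ⟨c1, hc1⟩ := par (anti _ _ (hz v0)) hw1
    obtain ⟨c2, hc2⟩ := par (anti _ _ (hz w0)) hw2
    have h12 := hz (v0 + w0)
    rw [mulVec_add, mulVec_add, hc1, hc2] at h12
    have hcc : c1 = c2 := by
      have : (c2 - c1) • n = 0 := by
        rw [← h12, hndef]
        apply ext3
        · simp only [Pi.smul_apply, smul_eq_mul, cr0, Pi.add_apply]
          ring
        · simp only [Pi.smul_apply, smul_eq_mul, cr1, Pi.add_apply]
          ring
        · simp only [Pi.smul_apply, smul_eq_mul, cr2, Pi.add_apply]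
          ring
      rcases smul_eq_zero.1 this with h | h
      · exact (sub_eq_zero.1 h).symm
      · exact absurd h hn
    subst hcc
    obtain ⟨u, hu⟩ := rank_one_of_ker (B := A - (b + c1) • 1) (w1 := B *ᵥ v0) (w2 := B *ᵥ w0) (by
        have : A - (b + c1) • (1 : Mat 3) = B - c1 • 1 := by rw [hBdef, add_smul]; abel
        rw [this, sub_mulVec, smul_mulVec, one_mulVec, hc1, sub_self]) (by
        have : A - (b + c1) • (1 : Mat 3) = B - c1 • 1 := by rw [hBdef, add_smul]; abel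
        rw [this, sub_mulVec, smul_mulVec, one_mulVec, hc2, sub_self]) hn
    exact fin (b + c1) u _ hu

end Pool.Agent.L7h46.SF
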